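import Pool.Agent.Helper8_BRW.Stmts

/-!
# Squad BRW, module H3
-/

set_option autoImplicit false

open MeasureTheory Set Filter

namespace BRW.H51

theorem low_bound {t : ℝ} {n : ℕ} {ρ : ℝ} (hρ : 0 < ρ) (ht : 0 < t) (hn : 1 ≤ n)
    (hnt : (n : ℝ) ≤ ρ * t) :
    Real.exp (-t - ρ * t * Real.log (max 1 (2 * ρ))) ≤
      Real.exp (-t) * (t / 2) ^ n / n.factorial := by
  set R := max 1 (2 * ρ) with hR
  have hR1 : 1 ≤ R := le_max_left _ _
  have hR2 : 2 * ρ ≤ R := le_max_right _ _
  have hR0 : 0 < R := by linarith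
  have hlog : 0 ≤ Real.log R := Real.log_nonneg hR1
  have hn0 : (0 : ℝ) < n := by exact_mod_cast hn
  have hfac : (n.factorial : ℝ) ≤ (n : ℝ) ^ n := by exact_mod_cast Nat.factorial_le_pow n
  have hfac0 : (0 : ℝ) < n.factorial := by exact_mod_cast Nat.factorial_pos n
  have h1 : Real.exp (-(ρ * t * Real.log R)) ≤ (1 / R) ^ n := by
    have : (1 / R) ^ n = Real.exp (-(n * Real.log R)) := by
      rw [Real.exp_neg, ← Real.log_pow, Real.exp_log (by positivity)]
      simp
    rw [this]
    apply Real.exp_le_exp.mpr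
    have := mul_le_mul_of_nonneg_right hnt hlog
    linarith
  have h2 : (1 / R) ^ n ≤ (t / 2 / n) ^ n := by
    apply pow_le_pow_left₀ (by positivity)
    rw [div_le_div_iff₀ hR0 hn0]
    nlinarith
  have h3 : (t / 2 / n) ^ n ≤ (t / 2) ^ n / n.factorial := by
    rw [div_pow]
    apply div_le_div_of_nonneg_left (by positivity) hfac0 hfac
  calc Real.exp (-t - ρ * t * Real.log R)
      = Real.exp (-t) * Real.exp (-(ρ * t * Real.log R)) := by
        rw [← Real.exp_add]; congr 1
    _ ≤ Real.exp (-t) * ((t / 2) ^ n / n.factorial) := by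
        apply mul_le_mul_of_nonneg_left (h1.trans (h2.trans h3)) (Real.exp_pos _).le
    _ = Real.exp (-t) * (t / 2) ^ n / n.factorial := by ring

theorem h3 (hlow : LOWStmt) : H3Stmt := by
  intro b ρ L hb hρ hL
  set m : ℝ := (b + Real.exp 2 + 2 + ρ * Real.log (max 1 (2 * ρ))) / 2 with hm
  have hlogR : 0 ≤ Real.log (max 1 (2 * ρ)) := Real.log_nonneg (le_max_left _ _)
  have hm0 : 0 < m := by
    have := Real.exp_pos 2
    have h2 : 0 ≤ ρ * Real.log (max 1 (2 * ρ)) := mul_nonneg hρ.le hlogR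
    rw [hm]; linarith
  refine ⟨2 * Real.exp (b * L + 2 * L * (m + 1)), 2 * L + 1, by positivity, by linarith, ?_⟩
  intro a ξ hEnv y h hh t n ht hn hnt
  have ht1 : 1 ≤ t := by linarith
  have ht0 : 0 < t := by linarith
  have htL : 2 * L ≤ t := by linarith
  set x : ℤ := y - n with hx
  have hxy : x < y := by
    have : (1 : ℤ) ≤ (n : ℤ) := by exact_mod_cast hn
    omega
  set θ : ℝ := 1 - L / t with hθ
  have hLt : L / t ≤ 1 / 2 := by
    rw [div_le_iff₀ ht0]; linarith
  have hLt0 : 0 ≤ L / t := by positivity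
  have hθ0 : 0 < θ := by rw [hθ]; linarith
  have hθ2 : 1 / 2 ≤ θ := by rw [hθ]; linarith
  have hθ1 : θ ≤ 1 := by rw [hθ]; linarith
  have hθt : θ * t = t - L := by
    rw [hθ]; field_simp
  have hθt' : b * (1 - θ) * t = b * L := by
    rw [hθ]; field_simp; ring
  set N : ℕ := ⌈m * t⌉₊ with hN
  have hN1 : m * t ≤ N := Nat.le_ceil _
  have hN2 : (N : ℝ) < m * t + 1 := Nat.ceil_lt_add_one (by positivity)
  have hA : (1 : ℝ) ≤ Real.exp 2 := Real.one_le_exp (by norm_num)
  have hg := hh.grow N (Real.exp 2) θ t x hA hθ0 hθ1 ht0.le hxy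
  rw [hθt, hθt'] at hg
  have hlo : Real.exp (-t - ρ * t * Real.log (max 1 (2 * ρ))) ≤ h t x :=
    (low_bound hρ ht0 hn hnt).trans ((hlow a b ξ hEnv y).2 h hh t n ht0.le)
  have hhpos : 0 < h t x := lt_of_lt_of_le (Real.exp_pos _) hlo
  -- the error term
  have herr : Real.exp ((b + Real.exp 2) * t) / Real.exp 2 ^ N ≤ h t x / 2 := by
    have e1 : Real.exp ((b + Real.exp 2) * t) / Real.exp 2 ^ N =
        Real.exp ((b + Real.exp 2) * t - 2 * N) := by
      rw [← Real.exp_nat_mul, ← Real.exp_sub]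
      congr 1; ring
    rw [e1]
    have e2 : (b + Real.exp 2) * t - 2 * N ≤
        (-t - ρ * t * Real.log (max 1 (2 * ρ))) - Real.log 2 := by
      have hl2 : Real.log 2 ≤ 1 := by
        have := Real.log_two_lt_d9
        linarith
      have : 2 * (m * t) = (b + Real.exp 2 + 2 + ρ * Real.log (max 1 (2 * ρ))) * t := by
        rw [hm]; ring
      nlinarith
    calc Real.exp ((b + Real.exp 2) * t - 2 * N)
        ≤ Real.exp ((-t - ρ * t * Real.log (max 1 (2 * ρ))) - Real.log 2) :=
          Real.exp_le_exp.mpr e2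
      _ = Real.exp (-t - ρ * t * Real.log (max 1 (2 * ρ))) / 2 := by
          rw [Real.exp_sub _ (Real.log 2), Real.exp_log (by norm_num)]
      _ ≤ h t x / 2 := by linarith
  have hθN : Real.exp (-(2 * L * (m + 1))) ≤ θ ^ N := by
    have hlogθ : -(2 * (L / t)) ≤ Real.log θ := by
      have h1 := Real.one_sub_inv_le_log_of_pos hθ0
      have h2 : -(2 * (L / t)) ≤ 1 - θ⁻¹ := by
        have : θ⁻¹ ≤ 1 + 2 * (L / t) := by
          rw [inv_le_iff_one_le_mul₀ hθ0, hθ]
          nlinarith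
        linarith
      linarith
    have hpow : θ ^ N = Real.exp (N * Real.log θ) := by
      rw [← Real.log_pow, Real.exp_log (by positivity)]
    rw [hpow]
    apply Real.exp_le_exp.mpr
    have h1 : (N : ℝ) * (-(2 * (L / t))) ≤ N * Real.log θ :=
      mul_le_mul_of_nonneg_left hlogθ (Nat.cast_nonneg _)
    have h2 : (N : ℝ) * (2 * (L / t)) ≤ 2 * L * (m + 1) := by
      have h3 : (N : ℝ) ≤ (m + 1) * t := by nlinarith
      have h4 : (N : ℝ) * (2 * (L / t)) ≤ ((m + 1) * t) * (2 * (L / t)) :=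
        mul_le_mul_of_nonneg_right h3 (by positivity)
      have h5 : ((m + 1) * t) * (2 * (L / t)) = 2 * L * (m + 1) := by
        field_simp
      linarith
    linarith
  -- conclusion
  have hfin : Real.exp (-(2 * L * (m + 1))) * Real.exp (-(b * L)) * (h t x / 2) ≤ h (t - L) x := by
    refine le_trans ?_ hg
    apply mul_le_mul
    · exact mul_le_mul_of_nonneg_right hθN (Real.exp_pos _).le
    · linarith
    · linarith
    · positivity
  have hkey : Real.exp (-(2 * L * (m + 1))) * Real.exp (-(b * L)) =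
      (Real.exp (b * L + 2 * L * (m + 1)))⁻¹ := by
    rw [← Real.exp_add, ← Real.exp_neg]; congr 1; ring
  rw [hkey] at hfin
  have hE := Real.exp_pos (b * L + 2 * L * (m + 1))
  have : h t x / 2 ≤ Real.exp (b * L + 2 * L * (m + 1)) * h (t - L) x := by
    calc h t x / 2 = Real.exp (b * L + 2 * L * (m + 1)) *
          ((Real.exp (b * L + 2 * L * (m + 1)))⁻¹ * (h t x / 2)) := by
            field_simp
      _ ≤ _ := mul_le_mul_of_nonneg_left hfin hE.le
  linarith

end BRW.H51
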