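import Pool.Agent.Helper8_BRW.Stmts

/-!
# Squad BRW, module UBD
-/

set_option autoImplicit false

open MeasureTheory Set Filter

namespace BRW.H51

/-- a function which is continuous on `[0, ∞)` gives a continuous function on the line -/
theorem cont_max {f : ℝ → ℝ} (hf : ContinuousOn f (Ici 0)) : Continuous (fun s => f (max s 0)) := by
  have h1 : Continuous (fun s : ℝ => max s 0) := by fun_prop
  exact hf.comp_continuous h1 (fun s => mem_Ici.mpr (le_max_right _ _))

/-- the primitive -/
noncomputable def J (c : ℝ) (f : ℝ → ℝ) (t : ℝ) : ℝ :=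
  ∫ s in (0 : ℝ)..t, Real.exp (-(c * s)) * f (max s 0)

theorem J_deriv {c : ℝ} {f : ℝ → ℝ} (hf : ContinuousOn f (Ici 0)) {t : ℝ} (ht : 0 ≤ t) :
    HasDerivAt (J c f) (Real.exp (-(c * t)) * f t) t := by
  have h1 : Continuous (fun s => Real.exp (-(c * s)) * f (max s 0)) := by
    have h3 : Continuous (fun s : ℝ => Real.exp (-(c * s))) := by fun_prop
    exact h3.mul (cont_max hf)
  have h2 := (h1.integral_hasStrictDerivAt 0 t).hasDerivAt
  rw [max_eq_left ht] at h2
  exact h2

theorem J_zero (c : ℝ) (f : ℝ → ℝ) : J c f 0 = 0 := by simp [J]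

theorem J_cont {c : ℝ} {f : ℝ → ℝ} (hf : ContinuousOn f (Ici 0)) :
    ContinuousOn (J c f) (Ici 0) := fun _ ht => (J_deriv hf ht).continuousAt.continuousWithinAt

theorem J_nonneg {c : ℝ} {f : ℝ → ℝ} (hf : ∀ s, 0 ≤ s → 0 ≤ f s) {t : ℝ} (ht : 0 ≤ t) :
    0 ≤ J c f t := by
  apply intervalIntegral.integral_nonneg ht
  intro s _
  exact mul_nonneg (Real.exp_pos _).le (hf _ (le_max_right _ _))

/-- two functions with the same right derivatives and the same value at zero -/
theorem eq_of_deriv {F G : ℝ → ℝ} {T : ℝ} (hT : 0 ≤ T) (hF : ContinuousOn F (Icc 0 T))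
    (hG : ContinuousOn G (Icc 0 T)) (h0 : F 0 = G 0)
    (hd : ∀ t, 0 ≤ t → t < T → ∃ d, HasDerivWithinAt F d (Ici t) t ∧
      HasDerivWithinAt G d (Ici t) t) : F T = G T := by
  have hc : ContinuousOn (fun t => F t - G t) (Icc 0 T) := hF.sub hG
  have := constant_of_has_deriv_right_zero hc (fun t ht => by
    obtain ⟨d, h1, h2⟩ := hd t ht.1 ht.2
    have h3 : HasDerivWithinAt (fun t => F t - G t) (d - d) (Ici t) t := h1.sub h2
    rwa [sub_self] at h3)
  have h3 := this T ⟨hT, le_refl _⟩
  simp only [h0, sub_self] at h3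
  linarith

section
variable {a b : ℝ} {ξ : ℤ → ℝ} {y : ℤ} {h : ℝ → ℤ → ℝ}

theorem lin_cont (hh : IsLin ξ b y h) (x : ℤ) : ContinuousOn (fun s => h s x) (Ici 0) := by
  intro t ht
  by_cases hx : x < y
  · exact (hh.deriv t x ht hx).continuousWithinAt
  · have : EqOn (fun s => h s x) (fun _ => 1) (Ici 0) := fun s hs => hh.bdry s x hs (not_lt.mp hx)
    exact (continuousOn_const.congr this) t ht

/-- the primitive of the linear solution satisfies an equation -/
theorem J_eq (hh : IsLin ξ b y h) (c : ℝ) {x : ℤ} (hx : x < y) {t : ℝ} (ht : 0 ≤ t) :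
    Real.exp (-(c * t)) * h t x + c * J c (fun s => h s x) t =
      (J c (fun s => h s (x + 1)) t + J c (fun s => h s (x - 1)) t) / 2 -
        J c (fun s => h s x) t + ξ x * J c (fun s => h s x) t := by
  have hex : ∀ r, HasDerivAt (fun t => Real.exp (-(c * t))) (-(c * Real.exp (-(c * r)))) r := by
    intro t
    have h1 : HasDerivAt (fun t : ℝ => -(c * t)) (-(c * 1)) t :=
      ((hasDerivAt_id t).const_mul c).neg
    have h2 := h1.exp
    exact h2.congr_deriv (by ring)
  refine eq_of_deriv (F := fun t => Real.exp (-(c * t)) * h t x + c * J c (fun s => h s x) t)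
    (G := fun t => (J c (fun s => h s (x + 1)) t + J c (fun s => h s (x - 1)) t) / 2 -
        J c (fun s => h s x) t + ξ x * J c (fun s => h s x) t) ht ?_ ?_ ?_ ?_
  · have h1 := (lin_cont hh x).mono (fun s hs => hs.1 : Icc 0 t ⊆ Ici 0)
    have h2 := (J_cont (c := c) (lin_cont hh x)).mono (fun s hs => hs.1 : Icc 0 t ⊆ Ici 0)
    have h3 : ContinuousOn (fun t => Real.exp (-(c * t))) (Icc 0 t) := by fun_prop
    exact (h3.mul h1).add (continuousOn_const.mul h2)
  · have h1 := (J_cont (c := c) (lin_cont hh (x + 1))).mono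
      (fun s hs => hs.1 : Icc 0 t ⊆ Ici 0)
    have h2 := (J_cont (c := c) (lin_cont hh (x - 1))).mono
      (fun s hs => hs.1 : Icc 0 t ⊆ Ici 0)
    have h3 := (J_cont (c := c) (lin_cont hh x)).mono (fun s hs => hs.1 : Icc 0 t ⊆ Ici 0)
    exact (((h1.add h2).div_const 2).sub h3).add (continuousOn_const.mul h3)
  · simp [J_zero, hh.init x hx]
  · intro s hs _
    have d0 := (hh.deriv s x hs hx).mono (Ici_subset_Ici.mpr hs)
    have d1 := (J_deriv (c := c) (lin_cont hh x) hs).hasDerivWithinAt (s := Ici s)
    have d2 := (J_deriv (c := c) (lin_cont hh (x + 1)) hs).hasDerivWithinAt (s := Ici s)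
    have d3 := (J_deriv (c := c) (lin_cont hh (x - 1)) hs).hasDerivWithinAt (s := Ici s)
    have de := (hex s).hasDerivWithinAt (s := Ici s)
    refine ⟨_, (de.mul d0).add (d1.const_mul c), ?_⟩
    refine ((((d2.add d3).div_const 2).sub d1).add (d1.const_mul (ξ x))).congr_deriv ?_
    simp only [lap]
    ring

theorem J_bdry (hh : IsLin ξ b y h) {c : ℝ} {t : ℝ} :
    1 + c * Real.exp (c * t) * J c (fun s => h s y) t = Real.exp (c * t) := by
  have hex : ∀ t, HasDerivAt (fun t => -Real.exp (-(c * t))) (c * Real.exp (-(c * t))) t := by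
    intro t
    have h1 : HasDerivAt (fun t : ℝ => -(c * t)) (-(c * 1)) t :=
      ((hasDerivAt_id t).const_mul c).neg
    have h2 := h1.exp.neg
    exact h2.congr_deriv (by ring)
  have h1 : c * J c (fun s => h s y) t = 1 - Real.exp (-(c * t)) := by
    unfold J
    rw [← intervalIntegral.integral_const_mul]
    have : ∀ s ∈ uIcc 0 t, c * (Real.exp (-(c * s)) * h (max s 0) y) =
        c * Real.exp (-(c * s)) := by
      intro s _
      rw [hh.bdry _ y (le_max_right _ _) le_rfl, mul_one]
    rw [intervalIntegral.integral_congr this,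
      intervalIntegral.integral_eq_sub_of_hasDerivAt (fun s _ => hex s)
        (Continuous.intervalIntegrable (by fun_prop) _ _)]
    simp only [mul_zero, neg_zero, Real.exp_zero]
    ring
  have h2 : Real.exp (c * t) * Real.exp (-(c * t)) = 1 := by
    rw [← Real.exp_add]; simp
  calc 1 + c * Real.exp (c * t) * J c (fun s => h s y) t
      = 1 + Real.exp (c * t) * (c * J c (fun s => h s y) t) := by ring
    _ = 1 + Real.exp (c * t) * (1 - Real.exp (-(c * t))) := by rw [h1]
    _ = _ := by rw [mul_sub, h2]; ring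

/-- integral bound in the high speed regime -/
theorem J_le (hscl : SCL2Stmt) (hEnv : Env a b ξ) (hh : IsLin ξ b y h) {c : ℝ} {n : ℕ} {t : ℝ}
    (hn : 1 ≤ n) (ht : 0 < t) (hnt : (c + 2) * t ≤ n) :
    Real.exp (c * t) * J c (fun s => h s (y - n)) t ≤ h t (y - n) := by
  have hh0 : 0 ≤ h t (y - n) := hh.nonneg t _ ht.le
  have hc : c + 2 ≤ n / t := by rwa [le_div_iff₀ ht]
  have hpt : ∀ s ∈ Icc 0 t, Real.exp (-(c * s)) * h (max s 0) (y - n) ≤
      Real.exp (-(c * t)) * h t (y - n) * Real.exp (s - t) := by
    intro s hs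
    rw [max_eq_left hs.1]
    have h1 := hscl a b ξ hEnv y h hh s t n hn hs.1 hs.2 ht
    have h2 : Real.exp (-((n / t - 1) * (t - s))) ≤ Real.exp (-((c + 1) * (t - s))) := by
      apply Real.exp_le_exp.mpr
      have : 0 ≤ t - s := by linarith [hs.2]
      nlinarith
    calc Real.exp (-(c * s)) * h s (y - n)
        ≤ Real.exp (-(c * s)) * (Real.exp (-((n / t - 1) * (t - s))) * h t (y - n)) :=
          mul_le_mul_of_nonneg_left h1 (Real.exp_pos _).le
      _ ≤ Real.exp (-(c * s)) * (Real.exp (-((c + 1) * (t - s))) * h t (y - n)) :=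
          mul_le_mul_of_nonneg_left (mul_le_mul_of_nonneg_right h2 hh0) (Real.exp_pos _).le
      _ = (Real.exp (-(c * s)) * Real.exp (-((c + 1) * (t - s)))) * h t (y - n) := by ring
      _ = (Real.exp (-(c * t)) * Real.exp (s - t)) * h t (y - n) := by
          rw [← Real.exp_add, ← Real.exp_add]; congr 2; ring
      _ = _ := by ring
  have hJ : J c (fun s => h s (y - n)) t ≤
      ∫ s in (0 : ℝ)..t, Real.exp (-(c * t)) * h t (y - n) * Real.exp (s - t) := by
    unfold J
    apply intervalIntegral.integral_mono_on ht.le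
    · apply Continuous.intervalIntegrable
      have h3 : Continuous (fun s : ℝ => Real.exp (-(c * s))) := by fun_prop
      exact h3.mul (cont_max (lin_cont hh (y - n)))
    · apply Continuous.intervalIntegrable
      fun_prop
    · exact hpt
  have hex : ∀ s, HasDerivAt (fun s => Real.exp (s - t)) (Real.exp (s - t)) s := by
    intro s
    have := ((hasDerivAt_id s).sub_const t).exp
    simpa using this
  rw [intervalIntegral.integral_const_mul,
    intervalIntegral.integral_eq_sub_of_hasDerivAt (fun s _ => hex s)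
      (Continuous.intervalIntegrable (by fun_prop) _ _)] at hJ
  have h1 : Real.exp (t - t) - Real.exp (0 - t) ≤ 1 := by
    have := Real.exp_pos (0 - t)
    simp only [sub_self, Real.exp_zero]
    linarith
  have h2 : 0 ≤ Real.exp (-(c * t)) * h t (y - n) := mul_nonneg (Real.exp_pos _).le hh0
  have h3 : J c (fun s => h s (y - n)) t ≤ Real.exp (-(c * t)) * h t (y - n) :=
    hJ.trans (by nlinarith)
  calc Real.exp (c * t) * J c (fun s => h s (y - n)) t
      ≤ Real.exp (c * t) * (Real.exp (-(c * t)) * h t (y - n)) :=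
        mul_le_mul_of_nonneg_left h3 (Real.exp_pos _).le
    _ = (Real.exp (c * t) * Real.exp (-(c * t))) * h t (y - n) := by ring
    _ = h t (y - n) := by rw [← Real.exp_add]; simp

end

theorem ubd (hmax : MaxStmt) (hcru : CRUStmt) (hscl : SCL2Stmt) : UBDStmt := by
  intro a b ξ hEnv y K v h hv hh T n hT hn hnT
  have ha : 0 < a := hEnv.1
  have hb : 0 < b := lt_of_lt_of_le ha ((hEnv.2 0).1.trans (hEnv.2 0).2)
  set c : ℝ := b + 1 with hc
  have hK : (0 : ℝ) < 2 ^ K := by positivity
  -- the supersolution
  set U : ℝ → ℤ → ℝ := fun t x => (h t x + c * Real.exp (c * t) * J c (fun s => h s x) t) / 2 ^ K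
    with hU
  have hJ0 : ∀ t x, 0 ≤ t → 0 ≤ J c (fun s => h s x) t := fun t x ht =>
    J_nonneg (fun s hs => hh.nonneg s x hs) ht
  have hU0 : ∀ t x, 0 ≤ t → 0 ≤ U t x := by
    intro t x ht
    simp only [hU]
    apply div_nonneg _ hK.le
    have h1 := hh.nonneg t x ht
    have h2 := hJ0 t x ht
    have h3 : 0 ≤ c * Real.exp (c * t) := by positivity
    have := mul_nonneg h3 h2
    linarith
  have hexp : ∀ t, HasDerivAt (fun t => Real.exp (c * t)) (c * Real.exp (c * t)) t := by
    intro t
    have h1 : HasDerivAt (fun t : ℝ => c * t) (c * 1) t := (hasDerivAt_id t).const_mul c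
    have h2 := h1.exp
    exact h2.congr_deriv (by ring)
  have hUy : ∀ t, 0 ≤ t → U t y = Real.exp (c * t) / 2 ^ K := by
    intro t ht
    simp only [hU]
    rw [hh.bdry t y ht le_rfl, J_bdry hh]
  have hUd : ∀ t x, 0 ≤ t → x < y → HasDerivWithinAt (fun s => U s x)
      (lap (U t) x + ξ x * U t x) (Ici t) t := by
    intro t x ht hx
    have d0 := (hh.deriv t x ht hx).mono (Ici_subset_Ici.mpr ht)
    have d1 := (J_deriv (c := c) (lin_cont hh x) ht).hasDerivWithinAt (s := Ici t)
    have de := (hexp t).hasDerivWithinAt (s := Ici t)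
    have hd := (d0.add ((de.const_mul c).mul d1)).div_const (2 ^ K)
    have heq := J_eq hh c hx ht
    have hee : Real.exp (c * t) * Real.exp (-(c * t)) = 1 := by
      rw [← Real.exp_add]; simp
    refine hd.congr_deriv ?_
    simp only [hU, lap]
    field_simp
    have h3 : c * Real.exp (c * t) * (Real.exp (-(c * t)) * h t x + c * J c (fun s => h s x) t) =
        c * Real.exp (c * t) *
      ((J c (fun s => h s (x + 1)) t + J c (fun s => h s (x - 1)) t) / 2 -
        J c (fun s => h s x) t + ξ x * J c (fun s => h s x) t) := by rw [heq]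
    have h4 : c * Real.exp (c * t) * (Real.exp (-(c * t)) * h t x) = c * h t x := by
      calc c * Real.exp (c * t) * (Real.exp (-(c * t)) * h t x)
          = c * (Real.exp (c * t) * Real.exp (-(c * t))) * h t x := by ring
        _ = _ := by rw [hee]; ring
    nlinarith [h3, h4]
  have hUc : ∀ x, x < y → ContinuousOn (fun s => U s x) (Ici 0) := by
    intro x _
    have h1 := lin_cont hh x
    have h2 := J_cont (c := c) (lin_cont hh x)
    have h3 : ContinuousOn (fun t => c * Real.exp (c * t)) (Ici 0) := by fun_prop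
    exact (h1.add (h3.mul h2)).div_const _
  -- the comparison
  set δ : ℝ → ℤ → ℝ := fun t x => if x < y then v t x - U t x else 0 with hδ
  have hvA : ∀ x, x < y → x ∈ Iio (y + (K : ℤ)) := by
    intro x hx
    simp only [mem_Iio]
    omega
  have hvc : ∀ x, x < y → ContinuousOn (fun s => v s x) (Ici 0) := fun x hx t ht =>
    (hv.deriv t x ht (hvA x hx)).continuousWithinAt
  have key := hmax δ T b 1 (fun _ => 0) hb.le (fun _ => le_rfl) ?_ ?_ ?_ ?_
  rotate_left
  · intro t x ht _
    simp only [hδ]
    split_ifs with hx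
    · have h1 := hv.le_one t x ht
      have h2 := hU0 t x ht
      linarith
    · exact zero_le_one
  · intro t x ht _ ht'
    have ht0 : t = 0 := le_antisymm ht' ht
    subst ht0
    simp only [hδ]
    split_ifs with hx
    · have h1 : v 0 x = 0 := by
        rw [hv.init x, ind, if_neg]
        have := hvA x hx
        simp only [mem_Iio] at this
        omega
      have h2 := hU0 0 x le_rfl
      linarith
    · exact le_rfl
  · intro x
    by_cases hx : x < y
    · simp only [hδ, if_pos hx]
      exact ((hvc x hx).sub (hUc x hx)).mono Icc_subset_Ici_self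
    · simp only [hδ, if_neg hx]
      exact continuousOn_const
  · intro t x ht _ hpos
    have hx : x < y := by
      by_contra hx
      simp only [hδ, if_neg hx] at hpos
      exact lt_irrefl _ hpos
    have ht' : (0 : ℝ) ≤ t := ht
    have hvd := (hv.deriv t x ht' (hvA x hx)).mono (Ici_subset_Ici.mpr ht')
    refine ⟨lap (v t) x + ξ x * (v t x * (1 - v t x)) - (lap (U t) x + ξ x * U t x), ?_, ?_⟩
    · have : (fun r => δ r x) = fun r => v r x - U r x := by
        funext r
        simp only [hδ, if_pos hx]
      rw [this]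
      exact hvd.sub (hUd t x ht' hx)
    · have hδx : δ t x = v t x - U t x := by simp only [hδ, if_pos hx]
      have hξ0 : 0 ≤ ξ x := ha.le.trans (hEnv.2 x).1
      have hξb : ξ x ≤ b := (hEnv.2 x).2
      have hle : ∀ z, z ≤ y → v t z - U t z ≤ max (δ t z) 0 := by
        intro z hz
        rcases hz.lt_or_eq with hz | hz
        · simp only [hδ, if_pos hz]
          exact le_max_left _ _
        · subst hz
          have h1 := (hcru a b ξ hEnv (z + K) 2 (by norm_num)).2.1 v hv t z ht'
          have h2 : v t z ≤ Real.exp (c * t) / 2 ^ K := by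
            refine h1.trans (le_of_eq ?_)
            have e1 : z - (z + (K : ℤ)) = -(K : ℤ) := by ring
            rw [e1, zpow_neg, zpow_natCast, hc]
            have e2 : (b + 2 / 2) * t = (b + 1) * t := by ring
            rw [e2]
            rfl
          rw [hUy t ht']
          exact le_max_of_le_right (by linarith)
      have h1 := hle (x + 1) (by omega)
      have h2 := hle (x - 1) (by omega)
      have h3 : ξ x * (v t x * (1 - v t x)) ≤ ξ x * v t x := by
        apply mul_le_mul_of_nonneg_left _ hξ0
        have := hv.nonneg t x ht'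
        nlinarith
      have h4 : ξ x * (v t x - U t x) ≤ b * δ t x := by
        rw [hδx]
        rw [hδx] at hpos
        exact mul_le_mul_of_nonneg_right hξb hpos.le
      rw [hδx] at hpos h4 ⊢
      simp only [lap]
      nlinarith
  · -- conclusion
    rcases hT.eq_or_lt with hT0 | hT0
    · have h1 : v T (y - n) = 0 := by
        rw [← hT0, hv.init, ind, if_neg]
        have : (1 : ℤ) ≤ (n : ℤ) := by exact_mod_cast hn
        omega
      rw [h1]
      have := hh.nonneg T (y - n) hT
      positivity
    · have hx : (y - (n : ℤ)) < y := by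
        have : (1 : ℤ) ≤ (n : ℤ) := by exact_mod_cast hn
        omega
      have h1 := key T (y - n) hT le_rfl
      simp only [hδ, if_pos hx] at h1
      have h2 := J_le hscl hEnv hh (c := c) hn hT0 (by rw [hc]; linarith)
      have h3 : U T (y - n) ≤ (b + 2) / 2 ^ K * h T (y - n) := by
        simp only [hU]
        rw [div_mul_eq_mul_div]
        apply div_le_div_of_nonneg_right _ hK.le
        have hc0 : 0 ≤ c := by rw [hc]; linarith
        have := mul_le_mul_of_nonneg_left h2 hc0
        have e : b + 2 = c + 1 := by rw [hc]; ring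
        rw [e]
        linarith
      linarith

end BRW.H51
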